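import Pool.Agent.H590.NL.Stm

/-!
# MP_85210c_gt in all dimensions: IA, integrability for `A`

The one-dimensional lemmas are those of `Pool/Agent/H788/PL/IA.lean` (planar case, helper788).
-/

set_option autoImplicit false
set_option linter.unusedSectionVars false

noncomputable section

open MeasureTheory Filter Topology Set
open scoped BigOperators ENNReal

namespace H399NLIA

open H590NL

/-! ### One dimension -/

theorem even_int {f : ℝ → ℝ} (h : IntegrableOn f (Ioi 0)) : Integrable (fun x : ℝ => f |x|) := by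
  have hf : IntegrableOn (fun x : ℝ => f |x|) (Ioi 0) := by
    refine h.congr_fun (fun x hx => ?_) measurableSet_Ioi
    rw [abs_of_pos (mem_Ioi.1 hx)]
  have int_Iic : IntegrableOn (fun x ↦ f |x|) (Iic 0) := by
    rw [← Measure.map_neg_eq_self (volume : Measure ℝ)]
    let m : MeasurableEmbedding fun x : ℝ => -x := (Homeomorph.neg ℝ).measurableEmbedding
    rw [m.integrableOn_map_iff]
    simp_rw [Function.comp_def, abs_neg, neg_preimage, neg_Iic, neg_zero]
    exact Iff.mpr integrableOn_Ici_iff_integrableOn_Ioi hf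
  have := int_Iic.union hf
  rwa [Iic_union_Ioi, integrableOn_univ] at this

/-- the weight -/
def h1 (p : ℝ) (s : ℝ) : ℝ := |s| ^ (p - 2) * Real.exp (-(1 / 2 * |s| ^ p))

theorem h1_nonneg (p s : ℝ) : 0 ≤ h1 p s :=
  mul_nonneg (Real.rpow_nonneg (abs_nonneg s) _) (Real.exp_pos _).le

theorem h1_int {p : ℝ} (hp : 1 < p) : Integrable (h1 p) := by
  have h := integrableOn_rpow_mul_exp_neg_mul_rpow (p := p) (s := p - 2) (b := 1 / 2)
    (by linarith) (by linarith) (by norm_num)
  have h2 := even_int h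
  refine h2.congr (Filter.Eventually.of_forall fun s => ?_)
  show |s| ^ (p - 2) * Real.exp (-(1 / 2) * |s| ^ p) = h1 p s
  rw [h1, neg_mul]

/-- the bound of the logarithm by powers -/
theorem log_bd {e x : ℝ} (he : 0 < e) (hx : 0 < x) : |Real.log x| ≤ (x ^ e + x ^ (-e)) / e := by
  have h1 := Real.log_le_rpow_div hx.le he
  have h2 := Real.log_le_rpow_div (inv_pos.2 hx).le he
  rw [Real.log_inv, Real.inv_rpow hx.le, ← Real.rpow_neg hx.le] at h2
  have h3 : 0 ≤ x ^ e / e := by positivity
  have h4 : 0 ≤ x ^ (-e) / e := by positivity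
  rw [add_div, abs_le]
  constructor <;> linarith

theorem h1log_int {p : ℝ} (hp : 1 < p) :
    Integrable (fun s : ℝ => h1 p s * Real.log (|s| ^ p)) := by
  obtain ⟨e, he, he1⟩ : ∃ e : ℝ, 0 < e ∧ e < p - 1 := ⟨(p - 1) / 2, by linarith, by linarith⟩
  have a1 := even_int (integrableOn_rpow_mul_exp_neg_mul_rpow (p := p) (s := p - 2 + e)
    (b := 1 / 2) (by linarith) (by linarith) (by norm_num))
  have a2 := even_int (integrableOn_rpow_mul_exp_neg_mul_rpow (p := p) (s := p - 2 - e)
    (b := 1 / 2) (by linarith) (by linarith) (by norm_num))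
  have hm : AEStronglyMeasurable (fun s : ℝ => h1 p s * Real.log (|s| ^ p)) := by
    have : Measurable (fun s : ℝ => h1 p s * Real.log (|s| ^ p)) := by
      unfold h1
      fun_prop
    exact this.aestronglyMeasurable
  refine ((a1.add a2).const_mul (p / e)).mono' hm ?_
  have h0 : ∀ᵐ s : ℝ, s ≠ 0 := by
    rw [ae_iff]
    simp
  filter_upwards [h0] with s hs
  have hs0 : 0 < |s| := abs_pos.2 hs
  have hl := log_bd he hs0
  rw [Real.norm_eq_abs, abs_mul, abs_of_nonneg (h1_nonneg p s), Real.log_rpow hs0, abs_mul,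
    abs_of_pos (by linarith : 0 < p)]
  have e1 : |s| ^ (p - 2 + e) = |s| ^ (p - 2) * |s| ^ e := Real.rpow_add hs0 _ _
  have e2 : |s| ^ (p - 2 - e) = |s| ^ (p - 2) * |s| ^ (-e) := by
    rw [sub_eq_add_neg (p - 2) e]
    exact Real.rpow_add hs0 _ _
  show h1 p s * (p * |Real.log (|s|)|) ≤ p / e * (|s| ^ (p - 2 + e) * Real.exp (-(1 / 2) * |s| ^ p)
    + |s| ^ (p - 2 - e) * Real.exp (-(1 / 2) * |s| ^ p))
  rw [e1, e2]
  have hE : Real.exp (-(1 / 2) * |s| ^ p) = Real.exp (-(1 / 2 * |s| ^ p)) := by rw [neg_mul]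
  rw [hE]
  calc h1 p s * (p * |Real.log (|s|)|) ≤ h1 p s * (p * ((|s| ^ e + |s| ^ (-e)) / e)) := by
        refine mul_le_mul_of_nonneg_left ?_ (h1_nonneg p s)
        exact mul_le_mul_of_nonneg_left hl (by linarith)
    _ = _ := by
        unfold h1
        ring

/-! ### The change of variables -/

section
variable {n : ℕ} {κ : Type} [Fintype κ]

/-- the linear map with the matrix `dm v f` -/
def chg (v : κ → V n) (f : Fin n → κ) : V n →ₗ[ℝ] V n := Matrix.toLin' (dm v f)

theorem chg_apply (v : κ → V n) (f : Fin n → κ) (x : V n) (i : Fin n) :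
    chg v f x i = ip (v (f i)) x := by
  unfold chg ip
  rw [Matrix.toLin'_apply]
  rfl

theorem chg_det {v : κ → V n} {f : Fin n → κ} (h : (dm v f).det ≠ 0) :
    LinearMap.det (chg v f) ≠ 0 := by
  unfold chg
  rwa [LinearMap.det_toLin']

theorem comp_int {v : κ → V n} {f : Fin n → κ} (h : (dm v f).det ≠ 0) {g : V n → ℝ}
    (hg : Integrable g) : Integrable (fun x => g (chg v f x)) := by
  have hdet := chg_det h
  let e : V n ≃ₗ[ℝ] V n := LinearMap.equivOfDetNeZero (chg v f) hdet
  have he : ∀ x, e x = chg v f x := fun x => rfl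
  have hmap := Measure.map_linearMap_addHaar_eq_smul_addHaar (volume : Measure (V n)) hdet
  have hme : MeasurableEmbedding e :=
    e.toContinuousLinearEquiv.toHomeomorph.measurableEmbedding
  have h1 : Integrable g (Measure.map e (volume : Measure (V n))) := by
    have h2 : Measure.map e (volume : Measure (V n)) =
      ENNReal.ofReal |(LinearMap.det (chg v f))⁻¹| • (volume : Measure (V n)) := hmap
    rw [h2]
    exact hg.smul_measure ENNReal.ofReal_ne_top
  exact (hme.integrable_map_iff).1 h1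

theorem prod_int {v : κ → V n} {f : Fin n → κ} (h : (dm v f).det ≠ 0) {g : Fin n → ℝ → ℝ}
    (hg : ∀ i, Integrable (g i)) : Integrable (fun x : V n => ∏ i, g i (ip (v (f i)) x)) := by
  have h1 : Integrable (fun x : V n => ∏ i, g i (x i)) := by
    have := Integrable.fintype_prod (μ := fun _ : Fin n => (volume : Measure ℝ)) hg
    exact this
  have h2 := comp_int h h1
  refine h2.congr (Filter.Eventually.of_forall fun x => ?_)
  show ∏ i, g i (chg v f x i) = _
  exact Finset.prod_congr rfl fun i _ => by rw [chg_apply]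

theorem ip_cont (v : V n) : Continuous (ip v) := by
  unfold ip
  fun_prop

theorem ip_meas (v : V n) : Measurable (ip v) := (ip_cont v).measurable

theorem Ph_one (p : ℝ) (v : κ → V n) (x : V n) : Ph p v one x = ∑ k, |ip (v k) x| ^ p := by
  unfold Ph one
  simp

theorem tau_nonneg (p : ℝ) (v : κ → V n) (k : κ) (x : V n) : 0 ≤ tau p v k x :=
  Real.rpow_nonneg (abs_nonneg _) _

theorem Ph_ge (p : ℝ) (v : κ → V n) (x : V n) (k : κ) : tau p v k x ≤ Ph p v one x := by
  rw [Ph_one]
  exact Finset.single_le_sum (f := fun k => |ip (v k) x| ^ p)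
    (fun i _ => Real.rpow_nonneg (abs_nonneg _) _) (Finset.mem_univ k)

theorem f_inj {v : κ → V n} {f : Fin n → κ} (h : (dm v f).det ≠ 0) : Function.Injective f := by
  intro i j hij
  by_contra hne
  exact h (Matrix.det_zero_of_row_eq hne (by
    funext l
    show v (f i) l = v (f j) l
    rw [hij]))

theorem Ph_ge2 (p : ℝ) (v : κ → V n) (x : V n) {f : Fin n → κ} (h : Function.Injective f) :
    ∑ i, tau p v (f i) x ≤ Ph p v one x := by
  classical
  rw [Ph_one]
  have h1 : ∑ k ∈ Finset.univ.image f, |ip (v k) x| ^ p = ∑ i, tau p v (f i) x :=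
    Finset.sum_image fun _ _ _ _ hij => h hij
  rw [← h1]
  exact Finset.sum_le_sum_of_subset_of_nonneg (Finset.subset_univ _)
    (fun i _ _ => Real.rpow_nonneg (abs_nonneg _) _)

theorem Ph_meas (p : ℝ) (v : κ → V n) : Measurable (Ph p v one) := by
  unfold Ph
  refine Finset.measurable_sum _ fun k _ => ?_
  have := ip_meas (v k)
  fun_prop

theorem tau_meas (p : ℝ) (v : κ → V n) (k : κ) : Measurable (tau p v k) := by
  unfold tau
  have := ip_meas (v k)
  fun_prop

/-- the basic function of a tuple -/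
def bb (p : ℝ) (v : κ → V n) (f : Fin n → κ) (x : V n) : ℝ :=
  Real.exp (-(Ph p v one x)) * ∏ i, |ip (v (f i)) x| ^ (p - 2)

theorem bb_meas (p : ℝ) (v : κ → V n) (f : Fin n → κ) : Measurable (bb p v f) := by
  unfold bb
  have h3 := Ph_meas p v
  refine (Real.measurable_exp.comp h3.neg).mul (Finset.measurable_prod _ fun i _ => ?_)
  have h1 := ip_meas (v (f i))
  fun_prop

theorem pr_nonneg (p : ℝ) (v : κ → V n) (f : Fin n → κ) (x : V n) :
    0 ≤ ∏ i, |ip (v (f i)) x| ^ (p - 2) :=
  Finset.prod_nonneg fun i _ => Real.rpow_nonneg (abs_nonneg _) _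

theorem bb_nonneg (p : ℝ) (v : κ → V n) (f : Fin n → κ) (x : V n) : 0 ≤ bb p v f x :=
  mul_nonneg (Real.exp_pos _).le (pr_nonneg p v f x)

theorem h1_prod (p : ℝ) (v : κ → V n) (f : Fin n → κ) (x : V n) :
    ∏ i, h1 p (ip (v (f i)) x) = Real.exp (-(1 / 2 * ∑ i, tau p v (f i) x)) *
      ∏ i, |ip (v (f i)) x| ^ (p - 2) := by
  unfold h1 tau
  rw [Finset.prod_mul_distrib, ← Real.exp_sum, mul_comm, Finset.mul_sum, Finset.sum_neg_distrib]

/-- tuples with a weight which is at most `C exp (Φ / 2)` -/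
theorem core {p : ℝ} (hp : 1 < p) {v : κ → V n} {f : Fin n → κ} (h : (dm v f).det ≠ 0)
    {W : V n → ℝ} (hW : Measurable W) {C : ℝ}
    (hC : ∀ x, |W x| ≤ C * Real.exp (Ph p v one x / 2)) :
    Integrable (fun x => bb p v f x * W x) := by
  have h0 := prod_int h (g := fun _ => h1 p) (fun _ => h1_int hp)
  have hm : AEStronglyMeasurable (fun x => bb p v f x * W x) :=
    ((bb_meas p v f).mul hW).aestronglyMeasurable
  refine (h0.const_mul C).mono' hm (Filter.Eventually.of_forall fun x => ?_)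
  have hC0 : 0 ≤ C := by
    have h3 := (abs_nonneg _).trans (hC 0)
    exact nonneg_of_mul_nonneg_left h3 (Real.exp_pos _)
  rw [Real.norm_eq_abs, abs_mul, abs_of_nonneg (bb_nonneg p v f x)]
  have h2 := Ph_ge2 p v x (f_inj h)
  have h4 : Real.exp (-(Ph p v one x)) * Real.exp (Ph p v one x / 2) ≤
      Real.exp (-(1 / 2 * ∑ i, tau p v (f i) x)) := by
    rw [← Real.exp_add]
    refine Real.exp_le_exp.2 ?_
    linarith
  have h5 := pr_nonneg p v f x
  calc bb p v f x * |W x| ≤ bb p v f x * (C * Real.exp (Ph p v one x / 2)) :=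
        mul_le_mul_of_nonneg_left (hC x) (bb_nonneg p v f x)
    _ = C * ((∏ i, |ip (v (f i)) x| ^ (p - 2)) *
          (Real.exp (-(Ph p v one x)) * Real.exp (Ph p v one x / 2))) := by
        unfold bb
        ring
    _ ≤ C * ((∏ i, |ip (v (f i)) x| ^ (p - 2)) *
          Real.exp (-(1 / 2 * ∑ i, tau p v (f i) x))) := by
        exact mul_le_mul_of_nonneg_left (mul_le_mul_of_nonneg_left h4 h5) hC0
    _ = C * ∏ i, h1 p (ip (v (f i)) x) := by
        rw [h1_prod]
        ring

/-- tuples with the logarithm -/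
theorem core_log {p : ℝ} (hp : 1 < p) {v : κ → V n} {f : Fin n → κ} (h : (dm v f).det ≠ 0)
    (i₀ : Fin n) : Integrable (fun x => bb p v f x * Real.log (tau p v (f i₀) x)) := by
  have h0 := prod_int h
    (g := fun i s => if i = i₀ then h1 p s * Real.log (|s| ^ p) else h1 p s) (fun i => by
      by_cases hi : i = i₀
      · simp only [hi, if_true]
        exact h1log_int hp
      · simp only [hi, if_false]
        exact h1_int hp)
  have hm : AEStronglyMeasurable (fun x => bb p v f x * Real.log (tau p v (f i₀) x)) :=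
    ((bb_meas p v f).mul (Real.measurable_log.comp (tau_meas p v (f i₀)))).aestronglyMeasurable
  refine (h0.norm).mono' hm (Filter.Eventually.of_forall fun x => ?_)
  have e1 : ∀ i : Fin n, (if i = i₀ then h1 p (ip (v (f i)) x) *
      Real.log (|ip (v (f i)) x| ^ p) else h1 p (ip (v (f i)) x)) =
      h1 p (ip (v (f i)) x) * (if i = i₀ then Real.log (|ip (v (f i)) x| ^ p) else 1) := by
    intro i
    split_ifs with hi
    · rfl
    · rw [mul_one]
  have e2 : (∏ i : Fin n, (if i = i₀ then h1 p (ip (v (f i)) x) *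
      Real.log (|ip (v (f i)) x| ^ p) else h1 p (ip (v (f i)) x))) =
      (∏ i, h1 p (ip (v (f i)) x)) * Real.log (tau p v (f i₀) x) := by
    rw [Finset.prod_congr rfl fun i _ => e1 i, Finset.prod_mul_distrib]
    congr 1
    rw [Finset.prod_ite_eq' Finset.univ i₀ (fun i => Real.log (|ip (v (f i)) x| ^ p)),
      if_pos (Finset.mem_univ _)]
    rfl
  rw [e2, Real.norm_eq_abs, Real.norm_eq_abs, abs_mul, abs_of_nonneg (bb_nonneg p v f x), abs_mul,
    abs_of_nonneg (Finset.prod_nonneg fun i _ => h1_nonneg p _)]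
  refine mul_le_mul_of_nonneg_right ?_ (abs_nonneg _)
  have h2 := Ph_ge2 p v x (f_inj h)
  have h3 : 0 ≤ ∑ i, tau p v (f i) x := Finset.sum_nonneg fun i _ => tau_nonneg p v (f i) x
  rw [h1_prod]
  unfold bb
  refine mul_le_mul_of_nonneg_right ?_ (pr_nonneg p v f x)
  refine Real.exp_le_exp.2 ?_
  linarith

/-! ### The weights -/

theorem exp_half_ge {t : ℝ} (ht : 0 ≤ t) : 1 ≤ Real.exp (t / 2) ∧ t ≤ 2 * Real.exp (t / 2) ∧
    t ^ 2 ≤ 8 * Real.exp (t / 2) := by
  have h1 := Real.add_one_le_exp (t / 2)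
  have h2 := Real.quadratic_le_exp_of_nonneg (x := t / 2) (by linarith)
  refine ⟨by linarith, by linarith, by nlinarith⟩

theorem tlog_bd {t : ℝ} (ht : 0 ≤ t) : |t * Real.log t| ≤ 1 + t ^ 2 := by
  rcases eq_or_lt_of_le ht with h0 | h0
  · rw [← h0]
    simp
  · rcases le_or_gt t 1 with h1 | h1
    · have h2 := Real.abs_log_mul_self_lt t h0 h1
      rw [mul_comm]
      nlinarith [sq_nonneg t]
    · have h2 : 0 ≤ Real.log t := Real.log_nonneg h1.le
      have h3 : Real.log t ≤ t := (Real.log_le_sub_one_of_pos h0).trans (by linarith)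
      rw [abs_of_nonneg (mul_nonneg ht h2)]
      nlinarith

theorem W1 (p : ℝ) (v : κ → V n) (x : V n) : |(1 : ℝ)| ≤ 1 * Real.exp (Ph p v one x / 2) := by
  rw [abs_one, one_mul]
  have h0 : 0 ≤ Ph p v one x := by
    rw [Ph_one]
    exact Finset.sum_nonneg fun i _ => Real.rpow_nonneg (abs_nonneg _) _
  exact (exp_half_ge h0).1

theorem Wt (p : ℝ) (v : κ → V n) (k : κ) (x : V n) :
    |tau p v k x| ≤ 2 * Real.exp (Ph p v one x / 2) := by
  have h0 := tau_nonneg p v k x
  rw [abs_of_nonneg h0]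
  refine (exp_half_ge h0).2.1.trans ?_
  refine mul_le_mul_of_nonneg_left (Real.exp_le_exp.2 ?_) (by norm_num)
  have := Ph_ge p v x k
  linarith

theorem Wtl (p : ℝ) (v : κ → V n) (k : κ) (x : V n) :
    |tau p v k x * Real.log (tau p v k x)| ≤ 9 * Real.exp (Ph p v one x / 2) := by
  have h0 := tau_nonneg p v k x
  have h1 := tlog_bd h0
  obtain ⟨a1, -, a3⟩ := exp_half_ge h0
  have h2 : Real.exp (tau p v k x / 2) ≤ Real.exp (Ph p v one x / 2) := by
    refine Real.exp_le_exp.2 ?_
    have := Ph_ge p v x k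
    linarith
  linarith

theorem tl_meas (p : ℝ) (v : κ → V n) (k : κ) :
    Measurable (fun x => tau p v k x * Real.log (tau p v k x)) :=
  (tau_meas p v k).mul (Real.measurable_log.comp (tau_meas p v k))

/-! ### The sums -/

theorem tup_int {p : ℝ} (hp : 1 < p) {v : κ → V n} (f : Fin n → κ) {W : V n → ℝ}
    (hW : Measurable W) {C : ℝ} (hC : ∀ x, |W x| ≤ C * Real.exp (Ph p v one x / 2)) :
    Integrable (fun x => (dm v f).det ^ 2 * (bb p v f x * W x)) := by
  by_cases h : (dm v f).det = 0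
  · rw [h]
    simp
  · exact (core hp h hW hC).const_mul _

theorem prod_eq (p : ℝ) (v : κ → V n) (f : Fin n → κ) (x : V n) :
    ∏ i, (p * |ip (v (f i)) x| ^ (p - 2)) = p ^ n * ∏ i, |ip (v (f i)) x| ^ (p - 2) := by
  rw [Finset.prod_mul_distrib, Finset.prod_const, Finset.card_univ, Fintype.card_fin]

theorem DD_one (p : ℝ) (v : κ → V n) (x : V n) :
    DD p v one x = (1 / (n.factorial : ℝ)) * ∑ f : Fin n → κ, (dm v f).det ^ 2 *
      (p ^ n * ∏ i, |ip (v (f i)) x| ^ (p - 2)) := by
  unfold DD one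
  congr 1
  refine Finset.sum_congr rfl fun f _ => ?_
  rw [← prod_eq]
  congr 1
  exact Finset.prod_congr rfl fun i _ => by rw [mul_one]

theorem DD_eq (p : ℝ) (v : κ → V n) (W : V n → ℝ) (x : V n) :
    Real.exp (-(Ph p v one x)) * DD p v one x * W x =
      (p ^ n / (n.factorial : ℝ)) * ∑ f : Fin n → κ, (dm v f).det ^ 2 * (bb p v f x * W x) := by
  rw [DD_one]
  unfold bb
  rw [Finset.mul_sum, Finset.mul_sum, Finset.sum_mul, Finset.mul_sum]
  refine Finset.sum_congr rfl fun f _ => ?_
  ring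

theorem DD_int {p : ℝ} (hp : 1 < p) {v : κ → V n} {W : V n → ℝ}
    (hW : Measurable W) {C : ℝ} (hC : ∀ x, |W x| ≤ C * Real.exp (Ph p v one x / 2)) :
    Integrable (fun x => Real.exp (-(Ph p v one x)) * DD p v one x * W x) := by
  simp_rw [DD_eq]
  refine Integrable.const_mul ?_ _
  exact integrable_finsetSum _ fun f _ => tup_int hp f hW hC

theorem G1_eq (p : ℝ) (v : κ → V n) (k : κ) (W : V n → ℝ) (x : V n) :
    G1 p v k x * W x = (p ^ n / (n.factorial : ℝ)) * ∑ f : Fin n → κ,
      cnt f k * ((dm v f).det ^ 2 * (bb p v f x * W x)) := by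
  unfold G1 bb
  rw [Finset.mul_sum, Finset.mul_sum, Finset.sum_mul, Finset.mul_sum]
  refine Finset.sum_congr rfl fun f _ => ?_
  rw [prod_eq]
  ring

theorem G1_int {p : ℝ} (hp : 1 < p) {v : κ → V n} (k : κ) {W : V n → ℝ}
    (hW : Measurable W) {C : ℝ} (hC : ∀ x, |W x| ≤ C * Real.exp (Ph p v one x / 2)) :
    Integrable (fun x => G1 p v k x * W x) := by
  simp_rw [G1_eq]
  refine Integrable.const_mul ?_ _
  exact integrable_finsetSum _ fun f _ => (tup_int hp f hW hC).const_mul _

theorem G1_log {p : ℝ} (hp : 1 < p) {v : κ → V n} (k : κ) :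
    Integrable (fun x => G1 p v k x * Real.log (tau p v k x)) := by
  classical
  have h := fun x => G1_eq p v k (fun x => Real.log (tau p v k x)) x
  simp_rw [h]
  clear h
  refine Integrable.const_mul ?_ _
  refine integrable_finsetSum _ fun f _ => ?_
  by_cases hd : (dm v f).det = 0
  · rw [hd]
    simp
  · by_cases hk : ∃ i, f i = k
    · obtain ⟨i, rfl⟩ := hk
      exact ((core_log hp hd i).const_mul _).const_mul _
    · have h0 : cnt f k = 0 := by
        unfold cnt
        exact Finset.sum_eq_zero fun i _ => if_neg fun hi => hk ⟨i, hi⟩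
      rw [h0]
      simp

theorem DD_nonneg {p : ℝ} (hp : 1 < p) (v : κ → V n) (x : V n) : 0 ≤ DD p v one x := by
  rw [DD_one]
  have h0 : 0 ≤ p ^ n := by positivity
  refine mul_nonneg (by positivity) (Finset.sum_nonneg fun f _ => ?_)
  exact mul_nonneg (sq_nonneg _) (mul_nonneg h0 (pr_nonneg p v f x))

theorem DD_pos {p : ℝ} (hp : 1 < p) {v : κ → V n} {f : Fin n → κ} (h : (dm v f).det ≠ 0)
    {x : V n} (hf : ∀ i, ip (v (f i)) x ≠ 0) : 0 < DD p v one x := by
  rw [DD_one]
  have h0 : 0 < p ^ n := by positivity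
  refine mul_pos (by positivity) (Finset.sum_pos' (fun f _ =>
    mul_nonneg (sq_nonneg _) (mul_nonneg h0.le (pr_nonneg p v f x))) ⟨f, Finset.mem_univ _, ?_⟩)
  refine mul_pos (by positivity) (mul_pos h0 (Finset.prod_pos fun i _ =>
    Real.rpow_pos_of_pos (abs_pos.2 (hf i)) _))

theorem AA_pos {p : ℝ} (hp : 1 < p) {v : κ → V n} (hv : Spans v)
    (hint : Integrable (fun x => Real.exp (-(Ph p v one x)) * DD p v one x)) :
    0 < AA p v one := by
  obtain ⟨f, h⟩ := hv
  unfold AA
  rw [integral_pos_iff_support_of_nonneg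
    (fun x => mul_nonneg (Real.exp_pos _).le (DD_nonneg hp v x)) hint]
  have hO : IsOpen {x : V n | ∀ i, ip (v (f i)) x ≠ 0} := by
    rw [Set.ofPred_forall]
    exact isOpen_iInter_of_finite fun i => isOpen_ne_fun (ip_cont _) continuous_const
  have hne : {x : V n | ∀ i, ip (v (f i)) x ≠ 0}.Nonempty := by
    let e : V n ≃ₗ[ℝ] V n := LinearMap.equivOfDetNeZero (chg v f) (chg_det h)
    refine ⟨e.symm (fun _ => 1), fun i => ?_⟩
    have h1 : chg v f (e.symm (fun _ => 1)) = fun _ => 1 := e.apply_symm_apply _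
    rw [← chg_apply, h1]
    exact one_ne_zero
  refine lt_of_lt_of_le (hO.measure_pos volume hne) (measure_mono ?_)
  intro x hx
  exact (mul_pos (Real.exp_pos _) (DD_pos hp h hx)).ne'

end

/-- integrability for `A` -/
theorem IA : S_IA := by
  intro n κ _ p hp _ v hv
  have h0 : Integrable (fun x => Real.exp (-(Ph p v one x)) * DD p v one x) := by
    have := DD_int hp (v := v) (W := fun _ => (1 : ℝ)) measurable_const (W1 p v)
    simpa using this
  refine ⟨h0, AA_pos hp hv h0, fun k => ⟨?_, ?_, ?_, ?_, ?_⟩⟩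
  · exact DD_int hp (tau_meas p v k) (Wt p v k)
  · exact DD_int hp (tl_meas p v k) (Wtl p v k)
  · have := G1_int hp (v := v) k (W := fun _ => (1 : ℝ)) measurable_const (W1 p v)
    simpa using this
  · exact G1_int hp k (tau_meas p v k) (Wt p v k)
  · exact G1_log hp k

end H399NLIA
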